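import Pool.Agent.W398.SG.StmC

/-!
MP_9a3597_al, project SG, part C: the coclass does not increase in quotients (`S_QC`), and the
comparison of the two definitions of the coclass (`S_SUBC`).
-/

namespace Pool.Agent.W649.SG.QC

open Pool.Agent.W37.SG Pool.Agent.W398.SG.C

universe u v

theorem main_subc : S_SUBC.{u} := by
  intro p s G _ Q
  have key : ∀ c : ℕ, Q.lowerCentralSeries c = ⊥ ↔
      (⊤ : Subgroup Q).lowerCentralSeries c = ⊥ := by
    intro c
    rw [← Subgroup.top_subtype_lowerCentralSeries Q c]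
    exact Subgroup.map_eq_bot_iff_of_injective _ (Subgroup.subtype_injective Q)
  unfold SubCoclassLE CoclassLE
  simp only [key]

theorem lcs_bot_of_le {G : Type u} [Group G] {i j : ℕ} (hij : i ≤ j)
    (h : (⊤ : Subgroup G).lowerCentralSeries i = ⊥) :
    (⊤ : Subgroup G).lowerCentralSeries j = ⊥ :=
  le_bot_iff.1 (h ▸ Subgroup.lowerCentralSeries_antitone _ hij)

theorem lcs_const {G : Type u} [Group G] {i : ℕ}
    (h : (⊤ : Subgroup G).lowerCentralSeries i = (⊤ : Subgroup G).lowerCentralSeries (i + 1))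
    (j : ℕ) :
    (⊤ : Subgroup G).lowerCentralSeries (i + j) = (⊤ : Subgroup G).lowerCentralSeries i := by
  induction j with
  | zero => rfl
  | succ j ih =>
    rw [← add_assoc, Subgroup.lowerCentralSeries_succ, ih, ← Subgroup.lowerCentralSeries_succ, ← h]

theorem main_qc : S_QC.{u, v} := by
  intro p hp s G G' _ _ φ hG hφ hco
  obtain ⟨c, ⟨hc, hmin⟩, hcard0, hcard⟩ := hco
  have hfin : Finite G := Nat.finite_of_card_ne_zero hcard0
  have hfin' : Finite G' := Finite.of_surjective φ hφ
  have hmap : ∀ n, ((⊤ : Subgroup G).lowerCentralSeries n).map φ =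
      (⊤ : Subgroup G').lowerCentralSeries n := by
    intro n
    rw [Subgroup.map_lowerCentralSeries, ← MonoidHom.range_eq_map, MonoidHom.range_eq_top.2 hφ]
  have hex : ∃ n, (⊤ : Subgroup G').lowerCentralSeries n = ⊥ :=
    ⟨c, by rw [← hmap, hc, Subgroup.map_bot]⟩
  classical
  set c' := Nat.find hex with hc'def
  have hc' : (⊤ : Subgroup G').lowerCentralSeries c' = ⊥ := Nat.find_spec hex
  have hc'c : c' ≤ c := Nat.find_min' hex (by rw [← hmap, hc, Subgroup.map_bot])
  refine ⟨c', ⟨hc', fun n hn => Nat.find_min' hex hn⟩, Nat.card_pos.ne', ?_⟩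
  -- strict decrease
  have hlt : ∀ i < c, (⊤ : Subgroup G).lowerCentralSeries (i + 1) <
      (⊤ : Subgroup G).lowerCentralSeries i := by
    intro i hi
    refine lt_of_le_of_ne (Subgroup.lowerCentralSeries_antitone _ (Nat.le_succ i)) ?_
    intro h
    have h1 := lcs_const h.symm (c - i)
    rw [Nat.add_sub_cancel' hi.le, hc] at h1
    exact absurd (hmin h1.symm) (by omega)
  have hpow : ∀ i, ∃ n, Nat.card ((⊤ : Subgroup G).lowerCentralSeries i) = p ^ n := fun i =>
    IsPGroup.iff_card.1 (hG.to_subgroup _)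
  have hp1 : 1 < p := hp.out.one_lt
  have hstep : ∀ i < c, p * Nat.card ((⊤ : Subgroup G).lowerCentralSeries (i + 1)) ≤
      Nat.card ((⊤ : Subgroup G).lowerCentralSeries i) := by
    intro i hi
    obtain ⟨a, ha⟩ := hpow i
    obtain ⟨b, hb⟩ := hpow (i + 1)
    have h1 : Nat.card ((⊤ : Subgroup G).lowerCentralSeries (i + 1)) <
        Nat.card ((⊤ : Subgroup G).lowerCentralSeries i) :=
      Set.Finite.card_lt_card (Set.toFinite _) (hlt i hi)
    rw [ha, hb] at h1 ⊢
    have h2 : b < a := (Nat.pow_lt_pow_iff_right hp1).1 h1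
    calc p * p ^ b = p ^ (b + 1) := by ring
      _ ≤ p ^ a := Nat.pow_le_pow_right hp1.le h2
  have hbig : ∀ k, k ≤ c → p ^ k ≤ Nat.card ((⊤ : Subgroup G).lowerCentralSeries (c - k)) := by
    intro k
    induction k with
    | zero =>
      intro _
      rw [pow_zero]
      exact Nat.card_pos
    | succ k ih =>
      intro hk
      have h1 := ih (by omega)
      have h2 := hstep (c - (k + 1)) (by omega)
      rw [show c - (k + 1) + 1 = c - k by omega] at h2
      calc p ^ (k + 1) = p * p ^ k := by ring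
        _ ≤ p * Nat.card ((⊤ : Subgroup G).lowerCentralSeries (c - k)) :=
            Nat.mul_le_mul_left _ h1
        _ ≤ _ := h2
  have hK : (⊤ : Subgroup G).lowerCentralSeries c' ≤ φ.ker := by
    rw [← Subgroup.map_eq_bot_iff, hmap, hc']
  have h1 : Nat.card ((⊤ : Subgroup G).lowerCentralSeries c') ≤ Nat.card φ.ker :=
    Subgroup.card_le_of_le hK
  have h2 : Nat.card φ.ker * Nat.card G' = Nat.card G := by
    have h3 := Subgroup.card_mul_index φ.ker
    rw [Subgroup.index_ker, MonoidHom.range_eq_top.2 hφ, Subgroup.card_top] at h3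
    exact h3
  have h3 := hbig (c - c') (by omega)
  rw [show c - (c - c') = c' by omega] at h3
  have h4 : p ^ (c - c') * Nat.card G' ≤ p ^ (c - c') * p ^ (c' + s) := by
    calc p ^ (c - c') * Nat.card G' ≤ Nat.card φ.ker * Nat.card G' :=
          Nat.mul_le_mul_right _ (h3.trans h1)
      _ = Nat.card G := h2
      _ ≤ p ^ (c + s) := hcard
      _ = p ^ (c - c') * p ^ (c' + s) := by
          rw [← pow_add]
          congr 1
          omega
  exact Nat.le_of_mul_le_mul_left h4 (Nat.pow_pos (by omega))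

end Pool.Agent.W649.SG.QC
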